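import Mathlib
import Pool.Agent.Helper890.TM.Assemble

set_option autoImplicit false

open Set Topology

namespace Pool.Agent.Results.MP_09f6a2_lc.NoPolishTopology

/-- The set underlying `ζ ^ α`: families of integers indexed by the ordinals, zero outside a finite
set of ordinals below `α`. -/
abbrev ZSeq (α : Ordinal.{0}) : Type 1 :=
  {f : Ordinal.{0} → ℤ // (∀ β : Ordinal.{0}, f β ≠ 0 → β < α) ∧ (Function.support f).Finite}

/-- The order of `ζ ^ α`: compare at the largest index where the two families differ. -/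
def ltZ (f g : Ordinal.{0} → ℤ) : Prop :=
  ∃ β : Ordinal.{0}, f β < g β ∧ ∀ γ : Ordinal.{0}, β < γ → f γ = g γ

/-- `(ℕ, r)` is a (strict) linear order of type `ζ ^ α`. -/
def IsZeta (r : ℕ → ℕ → Prop) (α : Ordinal.{0}) : Prop :=
  ∃ e : ℕ ≃ ZSeq α, ∀ m n : ℕ, r m n ↔ ltZ (e m).1 (e n).1

/-- `(ℕ, r)` is a (strict) linear order of type `ζ ^ α · η`: rationally many copies of `ζ ^ α`. -/
def IsZetaEta (r : ℕ → ℕ → Prop) (α : Ordinal.{0}) : Prop :=
  ∃ e : ℕ ≃ ℚ × ZSeq α, ∀ m n : ℕ,
    r m n ↔ ((e m).1 < (e n).1 ∨ ((e m).1 = (e n).1 ∧ ltZ (e m).2.1 (e n).2.1))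

/-- `(ℕ, r)` is a (strict) linear order of type `ζ ^ α` or `ζ ^ α · η` for a countable `α`. -/
def GroupType (r : ℕ → ℕ → Prop) : Prop :=
  ∃ α : Ordinal.{0}, Ordinal.card α ≤ Cardinal.aleph0 ∧ (IsZeta r α ∨ IsZetaEta r α)

/-- The set `M`, linear orders coded by their strict relation `<`. -/
def Mlt : Set (ℕ × ℕ → Bool) := {x | GroupType (fun m n => x (m, n) = true)}

/-- The set `M`, linear orders coded by their reflexive relation `≤`. -/
def Mle : Set (ℕ × ℕ → Bool) :=
  {x | ∃ r : ℕ → ℕ → Prop, GroupType r ∧ ∀ m n : ℕ, x (m, n) = true ↔ (m = n ∨ r m n)}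

/-- The logic action. -/
def act (g : Equiv.Perm ℕ) (x : ℕ × ℕ → Bool) : ℕ × ℕ → Bool :=
  fun p => x (g.symm p.1, g.symm p.2)

/-- The topology of pointwise convergence on the group of permutations of `ℕ`. -/
def permTop : TopologicalSpace (Equiv.Perm ℕ) :=
  TopologicalSpace.induced (fun g : Equiv.Perm ℕ => (⇑g : ℕ → ℕ)) inferInstance

/-- `t` is a Polish topology on `M` for which the restricted logic action is (well defined and)
jointly continuous. -/
def IsPolishForAction (M : Set (ℕ × ℕ → Bool)) (t : TopologicalSpace M) : Prop :=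
  @PolishSpace M t ∧ ∃ a : Equiv.Perm ℕ × M → M,
    (∀ (g : Equiv.Perm ℕ) (x : M), ((a (g, x) : M) : ℕ × ℕ → Bool) = act g x) ∧
    @Continuous (Equiv.Perm ℕ × M) M (@instTopologicalSpaceProd (Equiv.Perm ℕ) M permTop t) t a

theorem mle_eq : Mle = Pool.Agent.Helper890.TM.MM := by
  ext x
  constructor
  · rintro ⟨r, ⟨α, hα, h⟩, hx⟩
    refine ⟨α, hα, ?_⟩
    rcases h with ⟨e, he⟩ | ⟨e, he⟩
    · refine Or.inl ⟨e, fun m n => ?_⟩
      rw [hx, he, e.injective.eq_iff]
      exact Iff.rfl
    · refine Or.inr ⟨e, fun m n => ?_⟩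
      rw [hx, he, e.injective.eq_iff]
      exact Iff.rfl
  · rintro ⟨α, hα, h⟩
    rcases h with ⟨e, he⟩ | ⟨e, he⟩
    · refine ⟨fun m n => ltZ (e m).1 (e n).1, ⟨α, hα, Or.inl ⟨e, fun m n => Iff.rfl⟩⟩,
        fun m n => ?_⟩
      rw [he, e.injective.eq_iff]
      exact Iff.rfl
    · refine ⟨fun m n => ((e m).1 < (e n).1 ∨ ((e m).1 = (e n).1 ∧ ltZ (e m).2.1 (e n).2.1)),
        ⟨α, hα, Or.inr ⟨e, fun m n => Iff.rfl⟩⟩, fun m n => ?_⟩
      rw [he, e.injective.eq_iff]
      exact Iff.rfl

theorem not_le (t : TopologicalSpace Mle) : ¬ IsPolishForAction Mle t := by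
  revert t
  rw [mle_eq]
  rintro t ⟨hP, a, ha, hc⟩
  exact Pool.Agent.Helper890.TM.no_topology t hP a ha hc

theorem ltZ_irrefl (f : Ordinal.{0} → ℤ) : ¬ ltZ f f := by
  rintro ⟨β, h, -⟩
  exact lt_irrefl _ h

theorem irrefl_of {r : ℕ → ℕ → Prop} (h : GroupType r) (m : ℕ) : ¬ r m m := by
  obtain ⟨α, -, ⟨e, he⟩ | ⟨e, he⟩⟩ := h
  · rw [he]
    exact ltZ_irrefl _
  · rw [he]
    rintro (h | h)
    · exact lt_irrefl _ h
    · exact ltZ_irrefl _ h.2

/-- Passing from the strict to the reflexive code. -/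
noncomputable def toLe : Mlt ≃ Mle where
  toFun x := ⟨fun p => x.1 p || decide (p.1 = p.2), fun m n => x.1 (m, n) = true, x.2, by
    intro m n
    simp [or_comm]⟩
  invFun y := ⟨fun p => y.1 p && decide (p.1 ≠ p.2), by
    obtain ⟨r, hr, hy⟩ := y.2
    have : (fun m n => (y.1 (m, n) && decide (m ≠ n)) = true) = r := by
      funext m n
      have h1 := irrefl_of hr m
      apply propext
      rw [Bool.and_eq_true, hy, decide_eq_true_iff]
      constructor
      · rintro ⟨h | h, h2⟩
        · exact absurd h h2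
        · exact h
      · intro h
        refine ⟨Or.inr h, ?_⟩
        rintro rfl
        exact h1 h
    show GroupType (fun m n => (y.1 (m, n) && decide (m ≠ n)) = true)
    rw [this]
    exact hr⟩
  left_inv x := by
    apply Subtype.ext
    funext ⟨m, n⟩
    have h1 := irrefl_of x.2 m
    by_cases h : m = n
    · subst h
      simp only [decide_true, Bool.or_true, ne_eq, not_true_eq_false, decide_false, Bool.and_false]
      exact (Bool.eq_false_of_not_eq_true h1).symm
    · simp [h]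
  right_inv y := by
    apply Subtype.ext
    funext ⟨m, n⟩
    obtain ⟨r, hr, hy⟩ := y.2
    by_cases h : m = n
    · subst h
      simp only [ne_eq, not_true_eq_false, decide_false, Bool.and_false, decide_true, Bool.or_true]
      exact ((hy m m).2 (Or.inl rfl)).symm
    · simp [h]

theorem not_lt (t : TopologicalSpace Mlt) : ¬ IsPolishForAction Mlt t := by
  rintro ⟨hP, a, ha, hc⟩
  letI : TopologicalSpace (Equiv.Perm ℕ) := permTop
  letI : TopologicalSpace Mle := t.induced toLe.symm
  have hce : Continuous toLe.symm := continuous_induced_dom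
  have hce' : Continuous toLe := by
    rw [continuous_induced_rng]
    have : (toLe.symm ∘ toLe) = (id : Mlt → Mlt) := by
      funext x; simp
    rw [this]
    exact continuous_id
  refine not_le (t.induced toLe.symm) ⟨?_, fun q => toLe (a (q.1, toLe.symm q.2)), ?_, ?_⟩
  · haveI := hP
    let Φ : Mle ≃ₜ Mlt := ⟨toLe.symm, hce, hce'⟩
    exact Φ.isClosedEmbedding.polishSpace
  · intro g y
    have h1 : ∀ x : Mlt, (toLe x : ℕ × ℕ → Bool) = fun p => x.1 p || decide (p.1 = p.2) := fun x => rfl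
    rw [h1]
    funext p
    show ((a (g, toLe.symm y)).1 p || decide (p.1 = p.2)) = act g y.1 p
    rw [ha]
    have h2 : (y : ℕ × ℕ → Bool) = fun p => (toLe.symm y).1 p || decide (p.1 = p.2) := by
      rw [← h1, Equiv.apply_symm_apply]
    show ((toLe.symm y).1 (g.symm p.1, g.symm p.2) || decide (p.1 = p.2)) =
      (y : ℕ × ℕ → Bool) (g.symm p.1, g.symm p.2)
    rw [h2]
    simp
  · have h3 : Continuous (fun q : Equiv.Perm ℕ × Mle => (q.1, toLe.symm q.2)) :=
      continuous_fst.prodMk (hce.comp continuous_snd)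
    exact hce'.comp (hc.comp h3)

/-- There is no Polish topology on `M` making the logic action continuous, whether linear orders
are coded by `<` or by `≤`. -/
theorem result :
    (¬ ∃ t : TopologicalSpace Mlt, IsPolishForAction Mlt t) ∧
    (¬ ∃ t : TopologicalSpace Mle, IsPolishForAction Mle t) :=
  ⟨fun ⟨t, ht⟩ => not_lt t ht, fun ⟨t, ht⟩ => not_le t ht⟩

end Pool.Agent.Results.MP_09f6a2_lc.NoPolishTopology
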